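import Pool.Agent.Lib.MP_81632f_ag.Pot.Deg14b
import Pool.Agent.Lib.MP_81632f_ag.Pot.Unif
import Pool.Agent.Lib.MP_81632f_ag.Lv.Tors2
import Pool.Agent.Lib.MP_81632f_ag.Lv.Dens
import Pool.Agent.Lib.MP_81632f_ag.Lv.Split
import Pool.Agent.Lib.MP_81632f_ag.Lv.SplitTwo
import Pool.Agent.Lib.MP_81632f_ag.Lv.CL
import Pool.Agent.Lib.MP_81632f_ag.Lv.Tor
import Pool.Agent.Lib.MP_81632f_ag.Lv.Ext
import Pool.Agent.Lib.MP_81632f_ag.Lv.Char
import Pool.Agent.Lib.MP_81632f_ag.Lv.Down

/-!
# MP_81632f_ag: Tate classes on products of diagonal hypersurfaces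

Let `F` be a finite field with `q` elements, of characteristic `p`.  The eigenvalues of Frobenius
on the cohomology of a product of diagonal hypersurfaces of degrees prime to `p` are, after a finite
extension of `F` and up to powers of `q` and signs, products of Gauss sums of nontrivial characters
(`χ ^ d = 1` for the hypersurfaces of degree `d`), and the Tate classes belong to the multisets of
characters called Tate sets here.  The simplest Tate sets are `A + B` with `A`, `B` one character or
three characters with product `1` (they come from divisors on products of two curves, algebraic by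
Tate's theorem), and the Davenport-Hasse sets (they come from explicit cycles).  A multiset of
characters is called potentially algebraic if its lift to some finite extension of `F` (by the norm)
arises from these by sums and by removing pairs `χ`, `χ⁻¹` of nontrivial characters.  As the Tate
conjecture for a variety follows from the Tate conjecture for its base change, potentially algebraic
sets are as good as sets which arise over `F` itself.

The theorem says that, for the degrees described by `Deg` below, the potentially algebraic sets are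
exactly the Tate sets of even size, and that, for every degree `d` not of this kind, the same holds
for the multisets with even parities: for all odd squarefree divisors `R ≠ 1` of `d` which are not
good, the number of characters whose order is odd with radical `R` is even.
-/

namespace Pool.Agent.Results.MP_81632f_ag.DiagonalHypersurfaces

open Pool.Agent.Lib.MP81632f
open Pool.Agent.Lib.MP81632f.Diag Pool.Agent.Lib.MP81632f.Lv

/-- The odd squarefree divisor `R` of `m` is good: it divides some `p ^ i + 1`, or it is `3`, `5` or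
`33`, or `15` with `p` congruent to `7`, `11` or `13`, or it is the conductor of an odd Dirichlet
character of order a power of `2` with the value `1` at `p` and at the primes which divide `m` and
not `R`. -/
def Good (p m R : ℕ) : Prop :=
  (∃ i : ℕ, R ∣ p ^ i + 1) ∨ R ∈ [3, 5, 33] ∨ (R = 15 ∧ p % 15 ∈ [7, 11, 13]) ∨
  ∃ (χ : DirichletCharacter ℂ R) (k : ℕ), χ.IsPrimitive ∧ χ (-1) = -1 ∧ χ ^ (2 ^ k) = 1 ∧
    χ (p : ZMod R) = 1 ∧ ∀ l : ℕ, l.Prime → l ∣ m → ¬ l ∣ R → χ (l : ZMod R) = 1

/-- The exceptions for the degrees `2 ^ a K`: `(K, L)` means that the residues `L` of `p` modulo `K`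
are excluded. -/
def tabE : List (ℕ × List ℕ) :=
  [(11, [1]),
    (13, [1]),
    (15, []),
    (17, [1]),
    (19, [1, 7, 11]),
    (21, []),
    (29, [1]),
    (33, [1, 23]),
    (35, [1, 6, 8, 22, 29]),
    (37, [1, 10, 26]),
    (39, [1, 14]),
    (51, [1, 19, 25, 35, 38, 43, 47, 49]),
    (53, [1]),
    (55, [1, 12, 21, 23, 34]),
    (57, [1, 7, 11, 20, 26, 37, 49]),
    (59, [1]),
    (77, [1, 12, 23, 32, 34, 43, 45, 65, 67]),
    (87, [1, 46, 59, 70]),
    (93, [1, 25, 32, 61, 67]),
    (105, [1, 4, 16, 19, 22, 26, 29, 31, 34, 41, 43, 44, 46, 61, 64, 71, 74, 76, 79, 94, 101])]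

/-- The exceptions for other degrees: `(m, L)` means that the residues `L` of `p` modulo `m` are
excluded. -/
def tabO : List (ℕ × List ℕ) :=
  [(33, []),
    (39, []),
    (51, [1, 35]),
    (55, [21]),
    (57, [1, 20, 37]),
    (65, [1, 14, 21, 27, 31, 53]),
    (68, [1]),
    (69, [1, 4, 7, 10, 13, 16, 19, 22, 25, 28, 31, 34, 37, 40, 43, 47, 49, 52, 55, 58, 61, 64,
      67]),
    (76, [1, 39, 45, 49]),
    (85, [1, 18, 52, 69]),
    (87, [1, 59]),
    (91, [1, 2, 3, 4, 8, 9, 11, 15, 16, 18, 22, 23, 25, 27, 29, 30, 32, 36, 37, 40, 43, 44, 46,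
      48, 50, 51, 53, 55, 57, 58, 60, 61, 64, 66, 67, 68, 71, 72, 74, 79, 81, 85, 86, 87, 88]),
    (95, [31, 46, 56, 58, 77]),
    (105, [1, 22, 43, 64, 71, 76]),
    (231, [1, 23, 32, 34, 43, 65, 67, 89, 100, 109, 122, 142, 155, 166, 188, 197, 199, 221])]

/-- The order of `p` modulo `m` is odd, and `m` is the product of a power of `2` and distinct odd
primes, which are squares modulo each other; there are at most three of them if `m` is odd, and at
most two, modulo which `2` is a square, otherwise. -/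
def Few (p m : ℕ) : Prop :=
  ∃ (e : ℕ) (S : Finset ℕ), (∀ l ∈ S, l.Prime ∧ l ≠ 2) ∧
    (∀ l ∈ S, ∀ q ∈ S, l ≠ q → IsSquare (q : ZMod l)) ∧
    (e = 0 ∧ S.card ≤ 3 ∨ S.card ≤ 2 ∧ ∀ l ∈ S, IsSquare (2 : ZMod l)) ∧
    m = 2 ^ e * ∏ l ∈ S, l ∧ Odd (orderOf (p : ZMod m))

/-- The base degrees `m` in characteristic `p`. -/
def Base (p m : ℕ) : Prop :=
  m.Prime ∨
  (∃ a l : ℕ, l.Prime ∧ Odd (orderOf (2 : ZMod l)) ∧ m = 2 ^ a * l) ∨
  Few p m ∨
  (∀ R : ℕ, R ∣ m → Odd R → Squarefree R → R ≠ 1 → Good p m R) ∨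
  (∃ a : ℕ, ∃ e ∈ tabE, m = 2 ^ a * e.1 ∧ p % e.1 ∉ e.2) ∨
  (∃ e ∈ tabO, m = e.1 ∧ p % m ∉ e.2) ∨
  (p % 3 = 2 ∧ ∃ l j : ℕ, l.Prime ∧ l ≠ 2 ∧ (p ^ j ≡ 3 [MOD l] ∨ l ∣ p ^ j + 3) ∧ m = 3 * l) ∨
  (p % 4 = 3 ∧ ∃ l j : ℕ, l.Prime ∧ l ≠ 2 ∧ (p ^ j ≡ 2 [MOD l] ∨ l ∣ p ^ j + 2) ∧ m = 4 * l) ∨
  (p = 2 ∧ m ≤ 300 ∧ m ∉ [119, 133, 217, 219, 255, 267, 273, 287]) ∨
  (p = 3 ∧ m ≤ 200 ∧ m ≠ 143)

/-- `d` is treated in characteristic `p`: it divides `m n` for a base degree `m` prime to `p` and an
odd number `n` whose prime divisors divide `m`. -/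
def Deg (p d : ℕ) : Prop :=
  ∃ m n : ℕ, Base p m ∧ m.Coprime p ∧ Odd n ∧ (∀ l : ℕ, l.Prime → l ∣ n → l ∣ m) ∧ d ∣ m * n

theorem deg_iff (p d : ℕ) : Deg p d ↔ Pot.DegG p d := Iff.rfl

theorem good_iff (p m R : ℕ) : Good p m R ↔ Pot.Good p m R := Iff.rfl

theorem hTor : StTor := stTor stBasic stLval

theorem hCL : StCL := stCL stDens stSplit stSplitTwo

/-- Let `F` be a finite field of characteristic `p`, let `D` be a finite set of pairwise coprime
positive integers, and let `s` be a multiset of multiplicative characters `χ` of `F`, each with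
`χ ^ d = 1` for some `d` in `D`, or `χ ^ (2 d) = 1` for some odd `d` in `D`.  Suppose that every `d`
in `D` satisfies `Deg p d` or the following: for every odd squarefree divisor `R ≠ 1` of `d` which is
not good, the number of characters in `s` whose order is odd with radical `R` is even.  Then `s` is
potentially algebraic if and only if it is a Tate set of even size. -/
theorem result (p : ℕ) [Fact p.Prime] (F : Type) [Field F] [Fintype F] [CharP F p]
    (ψ : AddChar F ℂ) (hψ : ψ ≠ 1) (D : Finset ℕ)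
    (hcop : ∀ d ∈ D, ∀ e ∈ D, d ≠ e → Nat.Coprime d e) (s : Multiset (MulChar F ℂ))
    (hs : ∀ χ ∈ s, ∃ d ∈ D, χ ^ d = 1 ∨ (Odd d ∧ χ ^ (2 * d) = 1))
    (hD : ∀ d ∈ D, Deg p d ∨ ∀ R : ℕ, R ∣ d → Odd R → Squarefree R → R ≠ 1 →
      Good p d R ∨ Even (par R s)) :
    PotAlg F s ↔ IsTateSet ψ s ∧ Even (Multiset.card s) := by
  constructor
  · exact fun h => tate_of_potAlg p Pot.hKron (stDown stChar (stTrans Pot.hStick) Pot.hKron) hψ h
  · rintro ⟨hT, hev⟩
    refine potAlg_unif (p := p) stBasic hCL hTor (stTrans Pot.hStick) (stClose Pot.hKron) stExt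
      stChar hψ hT hev D ?_ hcop hs
    intro d hd
    rcases hD d hd with h | h
    · exact Or.inl (((deg_iff p d).mp h).lim hCL hTor Fact.out)
    · exact Or.inr fun R h1 h2 h3 h4 => (h R h1 h2 h3 h4).imp_left fun h5 =>
        Pot.Good.goodR hTor Fact.out h2 h3 ((good_iff p d R).mp h5)

end Pool.Agent.Results.MP_81632f_ag.DiagonalHypersurfaces
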