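import Pool.Agent.Lib.MP_81632f_ag.K3P.Main

/-!
# MP_81632f_ag: Tate classes on products of powers of K3 surfaces over finite fields

Let `X j` be finitely many K3 surfaces of finite heights `h j` over a finite field with
`q = p ^ a` elements, large enough, with geometric Picard numbers `ρ j`.  The characteristic
polynomial of Frobenius on the transcendental part of the second cohomology of `X j` is
`P j ^ e j` with `P j` irreducible, and `P j` is of K3 type of height `h j`, of degree `2 d j` and
with `m j` steep roots, where `2 (d j) (e j) = 22 - ρ j`, `(m j) (e j) = h j`.  The cohomology of
a product of powers of the `X j` enters as a commutative algebra `R` with an endomorphism `F`,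
generated by a subspace `W` (the second cohomology), on which `(F ^ M - q ^ M) (∏ j, P j)(F)`
vanishes.

The theorem: if the `P j` are pairwise independent (for roots `x` of `P j` and `y` of `P k` some
automorphism of the complex numbers fixes `x` and maps `y` to `q ^ 2 / y`) and each `P j` is in the
range `InRange p a (P j) (d j) (m j) i`, then the Tate classes of codimension `i` on all products
of powers of the `X j` are polynomials in Tate classes of degree two and four, hence in divisor
classes and classes coming from products of two of the surfaces.
-/

namespace Pool.Agent.Results.MP_81632f_ag.K3Products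

open Polynomial Pool.Agent.Lib.MP81632f.K3 Pool.Agent.Lib.MP81632f.K3P

theorem result (p : ℕ) [Fact p.Prime] (a : ℕ) (ι : Type) [Fintype ι] (h d m : ι → ℕ)
    (P : ι → ℚ[X]) (hP : ∀ j, IsK3Type p a (h j) (P j) (d j) (m j))
    (hind : ∀ j k, j ≠ k → Independent p a (P j) (P k))
    (i : ℕ) (hi : ∀ j, InRange p a (P j) (d j) (m j) i) :
    GeneratedByPairs p a (∏ j, P j) i :=
  main hP hind i hi

end Pool.Agent.Results.MP_81632f_ag.K3Products
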