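import Pool.Agent.Lib.MP_81632f_ag.Mk6.Prod

/-!
# Tate classes on ordinary abelian varieties over finite fields

Every Tate class on a product of powers of the simple factors of an ordinary abelian variety of dimension
at most six over a finite field is generated by divisor classes and Weil classes, with explicit exceptions;
more generally on products of powers of the simple factors of independent such varieties and of
supersingular abelian varieties.
-/

open NumberField IsDedekindDomain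
open scoped Classical

open Pool.Agent.Lib.MP81632f.Mk Pool.Agent.Lib.MP81632f.Mk6 in
theorem Pool.Agent.Results.MP_81632f_ag.OrdinarySixfolds.result
    (L : Type) [Field L] [NumberField L] [IsGalois ℚ L] (p e : ℕ) (hp : p.Prime) (he : 0 < e)
    (v : HeightOneSpectrum (𝓞 L)) (hv : (p : 𝓞 L) ∈ v.asIdeal) (I : Type) [Fintype I]
    (M : I → Finset L) (hM : ∀ i, ∀ a ∈ M i, IsWeil (p ^ e) a ∧ IsOrd v (p ^ e) a)
    (hG : ∀ i, ∀ g : L ≃ₐ[ℚ] L, ∀ a ∈ M i, g a ∈ M i) (hc : ∀ i, (M i).card ≤ 12)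
    (hbad : ∀ i, ¬ IsBad (p ^ e) (M i))
    (hind : ∀ i j, i ≠ j → ∀ a ∈ M i, ∀ b ∈ M j, Indep (p ^ e) a b)
    (s : Multiset L)
    (hs : ∀ a ∈ s, (∃ i, a ∈ M i) ∨ (IsWeil (p ^ e) a ∧ IsSS (p ^ e) a))
    (h10 : ∀ i, (M i).card = 12 → (∃ a ∈ M i, (conj a).card = 10) → ∀ a ∈ M i, s.count a ≤ 2)
    (hT : IsTate (p ^ e) s) : Pool.Agent.Lib.MP81632f.Mk6.Gen v (p ^ e) s :=
  gen_prod hp he hv hM hG hc hbad hind hs h10 hT
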