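import Pool.Agent.Lib.MP_81632f_ag.Mk.P.All2_34
import Pool.Agent.Lib.MP_81632f_ag.Mk.P.Prod34

/-!
# Tate classes on products of abelian varieties over finite fields

Let `A_i` be finitely many abelian varieties over a finite field, pairwise orthogonal, each of dimension at
most five, or with a pair of Weil numbers only.  Every Tate class on a product of powers of the simple
factors of the `A_i` and of supersingular abelian varieties is generated by divisor classes and Weil
classes, with explicit exceptions.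
-/

open NumberField IsDedekindDomain

open Pool.Agent.Lib.MP81632f.Mk in
theorem Pool.Agent.Results.MP_81632f_ag.ProductsOfFivefolds.result
    (L : Type) [Field L] [NumberField L] [IsGalois ℚ L] (p e : ℕ) (hp : p.Prime) (he : 0 < e)
    (v : HeightOneSpectrum (𝓞 L)) (hv : (p : 𝓞 L) ∈ v.asIdeal) (ι : Type) [Fintype ι]
    (m : ι → Multiset L)
    (hm : ∀ i, (IsAV (p ^ e) v (m i) ∧ (m i).card ≤ 10) ∨
      ∃ a, IsWeil (p ^ e) a ∧ m i = {a, ((p ^ e : ℕ) : L) ^ 2 / a})
    (hO : ∀ i j, i ≠ j → ∀ a ∈ m i, ∀ b ∈ m j, Orth (p ^ e) v a b) (s : Multiset L)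
    (hs : ∀ a ∈ s, (∃ i, a ∈ m i) ∨
      (IsWeil (p ^ e) a ∧ ∃ N : ℕ, 0 < N ∧ a ^ N = ((p ^ e : ℕ) : L) ^ N))
    (hex : ∀ i, IsTriple (p ^ e) 4 (m i) →
      npart (p ^ e) (m i) s ≤ m i ∧ Even (npart (p ^ e) (m i) s).card)
    (hex' : ∀ i, IsTriple (p ^ e) 2 (m i) → 8 < (npart (p ^ e) (m i) (m i)).card →
      Even (npart (p ^ e) (m i) s).card)
    (hT : IsTate (p ^ e) s) : Gen6 v (p ^ e) s :=
  P.gen_products P.stMainS_all34 hp he hv hm hO hs hex hex' hT
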